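import Mathlib
import Pool.Agent.H.MP_15e198_al.Low

namespace Pool.Agent.Results.MP_15e198_al.Full
open Pool.Agent.H.MP_15e198_al

theorem result (r n : ℕ) (hr : 1 ≤ r) :
    IsGreatest {m : ℕ | ∃ X : Finset (FreeGroup (Fin r)), X.card = m ∧ (∀ g ∈ X, g.norm ≤ n) ∧
        Function.Injective (FreeGroup.lift (fun x : X => (x : FreeGroup (Fin r))))}
      (if n = 0 then 0 else if Even n then (2 * r - 1) ^ (n / 2) else r * (2 * r - 1) ^ (n / 2)) := by
  classical
  have : Nonempty (Fin r) := ⟨⟨0, hr⟩⟩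
  have hq : Fintype.card (Fin r × Bool) = (2 * r - 1) + 1 := by simp; omega
  have hq1 : 1 ≤ 2 * r - 1 := by omega
  have hex : ∀ b : Fin r × Bool, ∃ f : Fin (2 * r - 1) → Fin r × Bool,
      Function.Injective f ∧ ∀ i, f i ≠ iv b := by
    intro b
    have : Fintype.card {a : Fin r × Bool // a ≠ iv b} = 2 * r - 1 := by simp; omega
    let f := (Fintype.equivFinOfCardEq this).symm
    exact ⟨fun i => f i, Subtype.val_injective.comp f.injective, fun i => (f i).2⟩
  choose e he2 he using hex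
  split_ifs with h0 h1
  · subst h0
    refine ⟨⟨∅, rfl, by simp, fun a b _ => Subsingleton.elim a b⟩, ?_⟩
    rintro m ⟨X, rfl, h1, h2⟩
    rw [Nat.le_zero, Finset.card_eq_zero, Finset.eq_empty_iff_forall_notMem]
    intro x hx
    have h3 : x = 1 := FreeGroup.norm_eq_zero.mp (Nat.le_zero.mp (h1 x hx))
    exact FreeGroup.of_ne_one (⟨x, hx⟩ : X) (h2 (by simp [h3]))
  · obtain ⟨k, rfl⟩ : ∃ k, n = 2 * k + 2 := by
      obtain ⟨j, rfl⟩ := h1
      exact ⟨j - 1, by omega⟩
    rw [show (2 * k + 2) / 2 = k + 1 by omega]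
    refine ⟨by rw [pow_succ']; exact low_even e he he2 (⟨0, hr⟩, true) k, ?_⟩
    rintro m ⟨X, rfl, h1, h2⟩
    obtain ⟨H, R, a1, a2, a3⟩ := rank_le X _ h1 h2
    have := (gr H).even _ hq hq1 k R a3 a2
    omega
  · obtain ⟨k, rfl⟩ := Nat.not_even_iff_odd.mp h1
    rw [show (2 * k + 1) / 2 = k by omega]
    refine ⟨by simpa using low_odd e he he2 k, ?_⟩
    rintro m ⟨X, rfl, h1, h2⟩
    obtain ⟨H, R, a1, a2, a3⟩ := rank_le X _ h1 h2
    have := (gr H).odd _ hq hq1 k R a3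
    rw [show 2 * r - 1 + 1 = 2 * r by omega, mul_assoc] at this
    omega

end Pool.Agent.Results.MP_15e198_al.Full
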